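import Mathlib
import Pool.Agent.Y674.HY.Stm

set_option autoImplicit false

/-! Project HY, job HY-LIOU: Liouville's inequality for combinations of powers of the roots. -/

namespace Pool.Agent.Y927.HY

open Polynomial NumberField Pool.Agent.Y674.HY

/-- the size of the scaled roots -/
theorem root_bound (h : ℤ[X]) (H : ℕ) (hH : ∀ i, |h.coeff i| ≤ (H : ℤ)) (h0 : h ≠ 0) (r : ℂ)
    (hr : (h.map (Int.castRingHom ℂ)).eval r = 0) : ‖(h.leadingCoeff : ℂ) * r‖ ≤ 2 * H := by
  have ha : (1 : ℝ) ≤ ‖(h.leadingCoeff : ℂ)‖ := by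
    rw [Complex.norm_intCast]
    have : (1 : ℤ) ≤ |h.leadingCoeff| := Int.one_le_abs (leadingCoeff_ne_zero.mpr h0)
    exact_mod_cast this
  have hb : ∀ i, ‖(h.coeff i : ℂ)‖ ≤ H := by
    intro i
    rw [Complex.norm_intCast]
    exact_mod_cast hH i
  by_contra hcon
  push Not at hcon
  rw [norm_mul] at hcon
  set a : ℝ := ‖(h.leadingCoeff : ℂ)‖ with hadef
  set t : ℝ := ‖r‖ with ht
  have hab : a ≤ H := hb h.natDegree
  have ht0 : 0 ≤ t := norm_nonneg _
  have ht1 : 1 < t := by
    by_contra h1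
    push Not at h1
    have : a * t ≤ a * 1 := mul_le_mul_of_nonneg_left h1 (by linarith)
    have hH0 : (0 : ℝ) ≤ H := Nat.cast_nonneg _
    linarith
  have e1 : (h.leadingCoeff : ℂ) * r ^ h.natDegree =
      - ∑ i ∈ Finset.range h.natDegree, (h.coeff i : ℂ) * r ^ i := by
    have h2 : (h.map (Int.castRingHom ℂ)).eval r =
        ∑ i ∈ Finset.range (h.natDegree + 1), (h.coeff i : ℂ) * r ^ i := by
      rw [eval_map, eval₂_eq_sum_range]
      rfl
    rw [Finset.sum_range_succ] at h2
    rw [hr] at h2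
    have h3 : (h.coeff h.natDegree : ℂ) = (h.leadingCoeff : ℂ) := rfl
    rw [h3] at h2
    linear_combination -h2
  have e2 : a * t ^ h.natDegree ≤ H * ∑ i ∈ Finset.range h.natDegree, t ^ i := by
    calc a * t ^ h.natDegree = ‖(h.leadingCoeff : ℂ) * r ^ h.natDegree‖ := by
          rw [norm_mul, norm_pow]
      _ = ‖∑ i ∈ Finset.range h.natDegree, (h.coeff i : ℂ) * r ^ i‖ := by rw [e1, norm_neg]
      _ ≤ ∑ i ∈ Finset.range h.natDegree, ‖(h.coeff i : ℂ) * r ^ i‖ := norm_sum_le _ _
      _ ≤ ∑ i ∈ Finset.range h.natDegree, (H : ℝ) * t ^ i := by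
          apply Finset.sum_le_sum
          intro i _
          rw [norm_mul, norm_pow]
          exact mul_le_mul_of_nonneg_right (hb i) (by positivity)
      _ = H * ∑ i ∈ Finset.range h.natDegree, t ^ i := by rw [Finset.mul_sum]
  have e3 : (∑ i ∈ Finset.range h.natDegree, t ^ i) * (t - 1) = t ^ h.natDegree - 1 :=
    geom_sum_mul t h.natDegree
  have hH0 : (0 : ℝ) < H := by linarith
  have hp : 0 < t ^ h.natDegree := by positivity
  have e4 : (a * (t - 1)) * t ^ h.natDegree < H * t ^ h.natDegree := by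
    calc (a * (t - 1)) * t ^ h.natDegree = (a * t ^ h.natDegree) * (t - 1) := by ring
      _ ≤ (H * ∑ i ∈ Finset.range h.natDegree, t ^ i) * (t - 1) :=
          mul_le_mul_of_nonneg_right e2 (by linarith)
      _ = H * (t ^ h.natDegree - 1) := by rw [mul_assoc, e3]
      _ < H * t ^ h.natDegree := by
          apply mul_lt_mul_of_pos_left _ hH0
          linarith
  have e5 : a * (t - 1) < H := lt_of_mul_lt_mul_right e4 hp.le
  linarith

/-- Liouville's inequality -/
theorem liou : LIOU := by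
  classical
  intro e h H he hdeg hsep hH1 hH c A hA0 hA m j α hα
  have h0 : h ≠ 0 := by
    rintro rfl
    rw [natDegree_zero] at hdeg
    omega
  set p : ℚ[X] := h.map (Int.castRingHom ℚ) with hp
  have hinj : Function.Injective (Int.castRingHom ℚ) := RingHom.injective_int _
  have hp0 : p ≠ 0 := (Polynomial.map_ne_zero_iff hinj).mpr h0
  have hpdeg : p.natDegree = e := by
    rw [hp, natDegree_map_eq_of_injective hinj, hdeg]
  let L := p.SplittingField
  have hfd : FiniteDimensional ℚ L := inferInstance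
  let ψ : L →ₐ[ℚ] ℂ := IsAlgClosed.lift
  set T : Finset L := (p.map (algebraMap ℚ L)).roots.toFinset with hT
  have hpc : ∀ i, p.coeff i = (h.coeff i : ℚ) := by
    intro i
    rw [hp, coeff_map]
    rfl
  have hpL : p.map (algebraMap ℚ L) = h.map (Int.castRingHom L) := by
    apply Polynomial.ext
    intro i
    rw [coeff_map, coeff_map]
    have h1 : (algebraMap ℚ L) ((h.coeff i : ℚ)) = ((h.coeff i : ℤ) : L) := map_intCast _ _
    rw [coeff_map]
    exact h1
  -- images of the roots
  have hmapC : ∀ σ : L →ₐ[ℚ] ℂ, (p.map (algebraMap ℚ L)).map (σ : L →+* ℂ) =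
      h.map (Int.castRingHom ℂ) := by
    intro σ
    rw [hpL, Polynomial.map_map]
    congr 1
    exact RingHom.ext_int _ _
  have himg : ∀ σ : L →ₐ[ℚ] ℂ, Rt h = T.image σ := by
    intro σ
    have hs : (p.map (algebraMap ℚ L)).Splits := SplittingField.splits p
    have h1 := hs.roots_map (σ : L →+* ℂ)
    rw [hmapC σ] at h1
    unfold Rt
    rw [h1, hT]
    ext z
    simp [Multiset.mem_toFinset]
  have hroot : ∀ r ∈ Rt h, ‖(h.leadingCoeff : ℂ) * r‖ ≤ 2 * H := by
    intro r hr
    apply root_bound h H hH h0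
    unfold Rt at hr
    rw [Multiset.mem_toFinset, mem_roots'] at hr
    exact hr.2
  -- the element
  set β : L := ∑ s ∈ T, (c (ψ s) : L) * ((h.leadingCoeff : L) * s) ^ j - (m : L) with hβ
  have hψβ : ψ β = α := by
    rw [hα, hβ, map_sub, map_sum, map_intCast, himg ψ,
      Finset.sum_image (f := fun r : ℂ => (c r : ℂ) * ((h.leadingCoeff : ℂ) * r) ^ j)
        (g := (ψ : L → ℂ)) (fun x _ y _ hxy => ψ.toRingHom.injective hxy)]
    congr 1
    apply Finset.sum_congr rfl
    intro s _
    rw [map_mul, map_pow, map_mul, map_intCast, map_intCast]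
  have hint : IsIntegral ℤ β := by
    rw [hβ]
    apply IsIntegral.sub
    · apply IsIntegral.sum
      intro s hs
      apply IsIntegral.mul
      · exact isIntegral_algebraMap (R := ℤ) (x := c (ψ s))
      · apply IsIntegral.pow
        have h1 : aeval s h = 0 := by
          rw [hT, Multiset.mem_toFinset, mem_roots'] at hs
          have h2 := hs.2
          rw [IsRoot.def, hpL, eval_map] at h2
          rw [aeval_def]
          have h4 : (algebraMap ℤ L) = Int.castRingHom L := RingHom.ext_int _ _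
          rw [h4]
          exact h2
        have h3 := isIntegral_leadingCoeff_smul h s h1
        rwa [zsmul_eq_mul] at h3
    · exact isIntegral_algebraMap (R := ℤ) (x := m)
  by_cases hβ0 : β = 0
  · left
    rw [← hψβ, hβ0, map_zero]
  right
  set X : ℝ := 1 + e * A * (2 * H : ℝ) ^ j + |(m : ℝ)| with hX
  have hX1 : 1 ≤ X := by
    have h1 : 0 ≤ (e : ℝ) * A * (2 * H : ℝ) ^ j := by positivity
    have h2 := abs_nonneg (m : ℝ)
    linarith
  -- all conjugates
  have hTcard : T.card ≤ e := by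
    have h1 : T.card ≤ (p.map (algebraMap ℚ L)).roots.card := Multiset.toFinset_card_le _
    have h2 := (p.map (algebraMap ℚ L)).card_roots'
    rw [natDegree_map, hpdeg] at h2
    omega
  have hconj : ∀ σ : L →ₐ[ℚ] ℂ, ‖σ β‖ ≤ X := by
    intro σ
    have h1 : σ β = ∑ s ∈ T, (c (ψ s) : ℂ) * ((h.leadingCoeff : ℂ) * σ s) ^ j - (m : ℂ) := by
      rw [hβ, map_sub, map_sum, map_intCast]
      congr 1
      apply Finset.sum_congr rfl
      intro s _
      rw [map_mul, map_pow, map_mul, map_intCast, map_intCast]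
    rw [h1]
    have h2 : ‖∑ s ∈ T, (c (ψ s) : ℂ) * ((h.leadingCoeff : ℂ) * σ s) ^ j‖ ≤
        e * A * (2 * H : ℝ) ^ j := by
      calc ‖∑ s ∈ T, (c (ψ s) : ℂ) * ((h.leadingCoeff : ℂ) * σ s) ^ j‖
          ≤ ∑ s ∈ T, ‖(c (ψ s) : ℂ) * ((h.leadingCoeff : ℂ) * σ s) ^ j‖ := norm_sum_le _ _
        _ ≤ ∑ _s ∈ T, A * (2 * H : ℝ) ^ j := by
            apply Finset.sum_le_sum
            intro s hs
            rw [norm_mul, norm_pow, Complex.norm_intCast]
            apply mul_le_mul
            · exact hA _ (by rw [himg ψ]; exact Finset.mem_image_of_mem _ hs)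
            · apply pow_le_pow_left₀ (norm_nonneg _)
              exact hroot _ (by rw [himg σ]; exact Finset.mem_image_of_mem _ hs)
            · positivity
            · exact hA0
        _ = T.card * (A * (2 * H : ℝ) ^ j) := by rw [Finset.sum_const, nsmul_eq_mul]
        _ ≤ e * (A * (2 * H : ℝ) ^ j) := by
            apply mul_le_mul_of_nonneg_right _ (by positivity)
            exact_mod_cast hTcard
        _ = e * A * (2 * H : ℝ) ^ j := by ring
    have h3 : ‖(m : ℂ)‖ = |(m : ℝ)| := Complex.norm_intCast m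
    have h4 := norm_sub_le (∑ s ∈ T, (c (ψ s) : ℂ) * ((h.leadingCoeff : ℂ) * σ s) ^ j) (m : ℂ)
    rw [h3] at h4
    linarith
  -- the number of embeddings
  have hcard : Fintype.card (L →ₐ[ℚ] ℂ) ≤ e.factorial := by
    have hRT : (Rt h).card = T.card := by
      rw [himg ψ]
      exact Finset.card_image_of_injective _ ψ.toRingHom.injective
    let F : (L →ₐ[ℚ] ℂ) → (T ↪ Rt h) := fun σ =>
      ⟨fun s => ⟨σ s.1, by rw [himg σ]; exact Finset.mem_image_of_mem _ s.2⟩, by
        intro x y hxy
        have h1 : σ x.1 = σ y.1 := congrArg Subtype.val hxy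
        exact Subtype.ext (σ.toRingHom.injective h1)⟩
    have hF : Function.Injective F := by
      intro σ τ hστ
      apply AlgHom.ext_of_adjoin_eq_top (SplittingField.adjoin_rootSet p)
      intro s hs
      have hs2 : s ∈ T := by
        rw [hT]
        have := hs
        rw [rootSet, Finset.mem_coe, aroots_def] at this
        exact this
      have h1 := congrArg (fun G : T ↪ Rt h => (G ⟨s, hs2⟩ : ℂ)) hστ
      exact h1
    have h1 := Fintype.card_le_of_injective F hF
    rw [Fintype.card_embedding_eq, Fintype.card_coe, Fintype.card_coe, hRT,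
      Nat.descFactorial_self] at h1
    exact h1.trans (Nat.factorial_le hTcard)
  -- the norm
  have hnorm : (1 : ℝ) ≤ ∏ σ : L →ₐ[ℚ] ℂ, ‖σ β‖ := by
    have h1 := Algebra.norm_eq_prod_embeddings ℚ ℂ β
    have h2 : IsIntegral ℤ (Algebra.norm ℚ β) := Algebra.isIntegral_norm ℚ hint
    obtain ⟨z, hz⟩ := IsIntegrallyClosed.isIntegral_iff.mp h2
    have h3 : Algebra.norm ℚ β ≠ 0 := Algebra.norm_ne_zero_iff.mpr hβ0
    have hz0 : z ≠ 0 := by
      rintro rfl
      rw [map_zero] at hz
      exact h3 hz.symm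
    rw [← norm_prod, ← h1, ← hz]
    have h4 : (algebraMap ℚ ℂ) ((algebraMap ℤ ℚ) z) = (z : ℂ) := by simp
    rw [h4, Complex.norm_intCast]
    have : (1 : ℤ) ≤ |z| := Int.one_le_abs hz0
    exact_mod_cast this
  have hprod : ∏ σ : L →ₐ[ℚ] ℂ, ‖σ β‖ ≤ ‖α‖ * X ^ e.factorial := by
    rw [← Finset.mul_prod_erase Finset.univ (fun σ : L →ₐ[ℚ] ℂ => ‖σ β‖) (Finset.mem_univ ψ), hψβ]
    apply mul_le_mul_of_nonneg_left _ (norm_nonneg _)
    calc ∏ σ ∈ Finset.univ.erase ψ, ‖σ β‖ ≤ ∏ _σ ∈ Finset.univ.erase ψ, X :=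
          Finset.prod_le_prod (fun σ _ => norm_nonneg _) (fun σ _ => hconj σ)
      _ = X ^ (Finset.univ.erase ψ).card := by rw [Finset.prod_const]
      _ ≤ X ^ e.factorial := by
          apply pow_le_pow_right₀ hX1
          refine le_trans ?_ hcard
          exact Finset.card_le_univ _
  exact hnorm.trans hprod

end Pool.Agent.Y927.HY
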